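import Pool.Agent.Helper99.SI.StM

/-!
# Project SI (MP_181f94_al), module M2: complex Laurent polynomials are a principal ideal domain
-/

set_option autoImplicit false

namespace Pool.Agent.Helper47.SI

open Pool.Agent.Helper99.SI Polynomial

theorem hM2 : StM2 := by
  have hloc : IsLocalization (Submonoid.powers (X : ℂ[X])) AA := LaurentPolynomial.isLocalization
  have hle : Submonoid.powers (X : ℂ[X]) ≤ nonZeroDivisors ℂ[X] :=
    powers_le_nonZeroDivisors_of_noZeroDivisors X_ne_zero
  refine ⟨IsLocalization.isDomain_of_le_nonZeroDivisors AA hle, ⟨fun I => ?_⟩⟩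
  have h1 : Ideal.map (algebraMap ℂ[X] AA) (Ideal.comap (algebraMap ℂ[X] AA) I) = I :=
    IsLocalization.map_under (Submonoid.powers (X : ℂ[X])) AA I
  obtain ⟨a, ha⟩ := (IsPrincipalIdealRing.principal (Ideal.comap (algebraMap ℂ[X] AA) I)).principal
  refine ⟨⟨algebraMap ℂ[X] AA a, ?_⟩⟩
  rw [← h1, ha]
  change Ideal.map (algebraMap ℂ[X] AA) (Ideal.span {a}) = Ideal.span {algebraMap ℂ[X] AA a}
  rw [Ideal.map_span, Set.image_singleton]

end Pool.Agent.Helper47.SI
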