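import Pool.Agent.Helper80.SI.StN

/-!
# Project SI (MP_181f94_al), module N14: a bilinear bound
-/

set_option autoImplicit false
set_option linter.unusedSectionVars false

namespace Pool.Agent.Helper47.SI

open Pool.Agent.Helper99.SI Pool.Agent.Helper80.SI Filter Topology

theorem nsq_eq {ι : Type} (u : ι →₀ ℂ) (s : Finset ι) (h : u.support ⊆ s) :
    nsq u = ∑ a ∈ s, ‖u a‖ ^ 2 := by
  unfold nsq
  rw [Finsupp.sum]
  refine Finset.sum_subset h fun a _ ha => ?_
  rw [Finsupp.notMem_support_iff.1 ha, norm_zero]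
  norm_num

section

variable {n : ℕ} {L : Type} [Ring L] [Algebra ℂ L] [StarRing L] [StarModule ℂ L] [Nontrivial L]

theorem key (h1 : StA1) (h3 : StK2) (h4 : StK3) (h5 : StK15) (D : Sys n L) (g g' : ℕ) (u v : W n →₀ ℂ)
    (hg' : 1 ≤ g') (hv : RotInv v) (hu : ∀ ν, u ν ≠ 0 → ν.length = g)
    (hvl : ∀ ν, v ν ≠ 0 → ν.length = g') (α β : W n) (hβ : β.length ≤ g) :
    ‖v.sum fun c s => star s * D.tau c (D.emb u * (D.w α * star (D.w β)))‖ ≤ g' * (nsq u + nsq v) := by
  classical
  obtain ⟨a1, a2, _, a4, _⟩ := h1 n L D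
  have hv0 : v [] = 0 := by
    by_contra h
    have := hvl [] h
    simp at this
    omega
  have hc : ∀ c ∈ v.support, c ≠ [] := by
    rintro c hc rfl
    exact (Finsupp.mem_support_iff.1 hc) hv0
  have hlin : ∀ c : W n, c ≠ [] → ∃ T : L →ₗ[ℂ] ℂ, ∀ y, T y = D.tau c y := by
    intro c hc
    obtain ⟨_, k2, k3, _⟩ := h3 n L D c hc
    exact ⟨{ toFun := D.tau c, map_add' := k2, map_smul' := fun a y => by rw [k3]; rfl }, fun _ => rfl⟩
  -- the shifted function
  set φ : W n → W n := fun μ => μ.drop β.length ++ α with hφ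
  set u₀ : W n →₀ ℂ := u.filter (fun μ => β <+: μ) with hu₀
  set u₁ : W n →₀ ℂ := u₀.mapDomain φ with hu₁
  set u₂ : W n →₀ ℂ := u₁.erase [] with hu₂
  have hpre : ∀ μ, u₀ μ ≠ 0 → β <+: μ := by
    intro μ h
    by_contra hn
    exact h (Finsupp.filter_apply_neg _ _ hn)
  have hinj : Set.InjOn φ (u₀.support : Set (W n)) := by
    intro μ hμ μ' hμ' h
    rw [Finset.mem_coe, Finsupp.mem_support_iff] at hμ hμ'
    obtain ⟨ν, rfl⟩ := hpre μ hμ
    obtain ⟨ν', rfl⟩ := hpre μ' hμ'
    rw [hφ] at h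
    dsimp only at h
    rw [List.drop_left, List.drop_left] at h
    rw [List.append_cancel_right h]
  -- the element
  have hstar : star (D.w β) * (D.emb u * D.w α) = D.emb u₁ := by
    have e1 : D.emb u = ∑ μ ∈ u.support, u μ • D.w μ := by
      unfold Sys.emb
      rw [Finsupp.linearCombination_apply, Finsupp.sum]
    have e2 : D.emb u₁ = ∑ μ ∈ u.support, (if β <+: μ then u μ • D.w (φ μ) else 0) := by
      unfold Sys.emb
      rw [hu₁, Finsupp.linearCombination_mapDomain, Finsupp.linearCombination_apply, Finsupp.sum,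
        ← Finset.sum_filter, hu₀, Finsupp.support_filter]
      refine Finset.sum_congr rfl fun μ hμ => ?_
      rw [Finset.mem_filter] at hμ
      rw [Finsupp.filter_apply_pos _ _ hμ.2]
      rfl
    rw [e1, e2, Finset.sum_mul, Finset.mul_sum]
    refine Finset.sum_congr rfl fun μ hμ => ?_
    rw [smul_mul_assoc, mul_smul_comm, ← mul_assoc]
    split_ifs with hp
    · obtain ⟨ν, rfl⟩ := hp
      rw [a2, hφ]
      dsimp only
      rw [List.drop_left, a1]
    · have hlen := hu μ (Finsupp.mem_support_iff.1 hμ)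
      rw [a4 β μ hp, zero_mul, smul_zero]
      intro hp'
      apply hp
      have h2 : μ.length ≤ β.length := hp'.length_le
      have h3 : μ = β := hp'.eq_of_length (by omega)
      rw [h3]
  -- the value of the functional
  have hval : ∀ c ∈ v.support, D.tau c (D.emb u * (D.w α * star (D.w β))) =
      ∑ a ∈ u₂.support, u₂ a * D.tau c (D.w a) := by
    intro c hcs
    have hcn := hc c hcs
    obtain ⟨T, hT⟩ := hlin c hcn
    rw [← mul_assoc, (h4 n L D c hcn).1, hstar]
    have e1 : D.emb u₁ = ∑ a ∈ u₁.support, u₁ a • D.w a := by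
      unfold Sys.emb
      rw [Finsupp.linearCombination_apply, Finsupp.sum]
    rw [← hT, e1, map_sum]
    have e3 : ∀ a, T (u₁ a • D.w a) = u₁ a * D.tau c (D.w a) := fun a => by
      rw [map_smul, hT]
      rfl
    simp only [e3]
    rw [hu₂, Finsupp.support_erase]
    have hnil : D.tau c (D.w []) = 0 := by
      rw [(h3 n L D c hcn).2.2.2.1]
      simp [rotc]
    by_cases hmem : ([] : W n) ∈ u₁.support
    · rw [← Finset.add_sum_erase _ _ hmem, hnil, mul_zero, zero_add]
      refine Finset.sum_congr rfl fun a ha => ?_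
      rw [Finsupp.erase_ne (Finset.ne_of_mem_erase ha)]
    · rw [Finset.erase_eq_of_notMem hmem]
      refine Finset.sum_congr rfl fun a ha => ?_
      rw [Finsupp.erase_ne]
      rintro rfl
      exact hmem ha
  have hu20 : u₂ [] = 0 := Finsupp.erase_same
  have hhf : (v.sum fun c s => star s * D.tau c (D.emb u * (D.w α * star (D.w β)))) = D.hf u₂ v := by
    unfold Sys.hf
    rw [Finsupp.sum, Finsupp.sum]
    have e1 : ∀ a ∈ u₂.support, (v.sum fun c s => u₂ a * star s * D.tau c (D.w a)) =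
        ∑ c ∈ v.support, u₂ a * star (v c) * D.tau c (D.w a) := fun a _ => rfl
    rw [Finset.sum_congr rfl e1, Finset.sum_comm]
    refine Finset.sum_congr rfl fun c hcs => ?_
    rw [hval c hcs, Finset.mul_sum]
    refine Finset.sum_congr rfl fun a _ => ?_
    ring
  rw [hhf, (h5 n L D u₂ v hu20 hv0).2 hv]
  -- norms
  have hn1 : nsq u₁ ≤ nsq u := by
    have e1 : nsq u₁ = ∑ a ∈ u₀.support.image φ, ‖u₁ a‖ ^ 2 :=
      nsq_eq u₁ _ (Finsupp.mapDomain_support)
    rw [e1, Finset.sum_image (fun μ hμ μ' hμ' h => hinj hμ hμ' h)]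
    have e2 : ∀ μ ∈ u₀.support, ‖u₁ (φ μ)‖ ^ 2 = ‖u μ‖ ^ 2 := by
      intro μ hμ
      rw [hu₁, Finsupp.mapDomain_apply' _ u₀ (Set.Subset.refl _) hinj hμ, hu₀,
        Finsupp.filter_apply_pos _ _ (hpre μ (Finsupp.mem_support_iff.1 hμ))]
    rw [Finset.sum_congr rfl e2, nsq_eq u _ (Finset.Subset.refl _)]
    refine Finset.sum_le_sum_of_subset_of_nonneg ?_ fun μ _ _ => by positivity
    rw [hu₀, Finsupp.support_filter]
    exact Finset.filter_subset _ _
  have hn2 : nsq u₂ ≤ nsq u₁ := by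
    rw [nsq_eq u₂ u₁.support (by rw [hu₂, Finsupp.support_erase]; exact Finset.erase_subset _ _),
      nsq_eq u₁ _ (Finset.Subset.refl _)]
    refine Finset.sum_le_sum fun a _ => ?_
    by_cases ha : a = []
    · rw [ha, hu20, norm_zero, zero_pow two_ne_zero]
      positivity
    · rw [hu₂, Finsupp.erase_ne ha]
  have hn3 : ∑ a ∈ u₂.support, ‖v a‖ ^ 2 ≤ nsq v := by
    rw [nsq_eq v (u₂.support ∪ v.support) Finset.subset_union_right]
    exact Finset.sum_le_sum_of_subset_of_nonneg Finset.subset_union_left fun a _ _ => by positivity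
  rw [Finsupp.sum]
  refine (norm_sum_le _ _).trans ?_
  have hterm : ∀ a ∈ u₂.support, ‖(a.length : ℂ) * (u₂ a * star (v a))‖ ≤
      g' * (‖u₂ a‖ ^ 2 + ‖v a‖ ^ 2) := by
    intro a _
    by_cases hva : v a = 0
    · rw [hva, star_zero, mul_zero, mul_zero, norm_zero]
      positivity
    · rw [hvl a hva, norm_mul, norm_mul, norm_star, Complex.norm_natCast]
      refine mul_le_mul_of_nonneg_left ?_ (Nat.cast_nonneg _)
      nlinarith [sq_nonneg (‖u₂ a‖ - ‖v a‖), sq_nonneg ‖u₂ a‖, sq_nonneg ‖v a‖]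
  refine (Finset.sum_le_sum hterm).trans ?_
  rw [← Finset.mul_sum, Finset.sum_add_distrib]
  refine mul_le_mul_of_nonneg_left ?_ (Nat.cast_nonneg _)
  rw [← nsq_eq u₂ _ (Finset.Subset.refl _)]
  linarith

end

theorem hN14 (h1 : StA1) (_h2 : StA3) (h3 : StK2) (h4 : StK3) (h5 : StK15) : StN14 := by
  intro n L _ _ _ _ _ D
  classical
  obtain ⟨h, hh⟩ := Finsupp.mem_span_range_iff_exists_finsupp.1 (D.span (HH D))
  refine ⟨∑ q ∈ h.support, ‖h q‖, h.support.sup (fun q => q.2.length),
    Finset.sum_nonneg fun _ _ => norm_nonneg _, ?_⟩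
  intro g g' u v hg hg' hv hu hvl
  have hv0 : v [] = 0 := by
    by_contra h
    have := hvl [] h
    simp at this
    omega
  have hc : ∀ c ∈ v.support, c ≠ [] := by
    rintro c hc rfl
    exact (Finsupp.mem_support_iff.1 hc) hv0
  have hlin : ∀ c : W n, c ≠ [] → ∃ T : L →ₗ[ℂ] ℂ, ∀ y, T y = D.tau c y := by
    intro c hc
    obtain ⟨_, k2, k3, _⟩ := h3 n L D c hc
    exact ⟨{ toFun := D.tau c, map_add' := k2, map_smul' := fun a y => by rw [k3]; rfl }, fun _ => rfl⟩
  have e : (v.sum fun c s => star s * D.tau c (D.emb u * HH D)) =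
      ∑ q ∈ h.support, h q * v.sum fun c s => star s * D.tau c (D.emb u * (D.w q.1 * star (D.w q.2))) := by
    rw [Finsupp.sum]
    have e1 : ∀ q ∈ h.support, (h q * v.sum fun c s => star s * D.tau c (D.emb u * (D.w q.1 * star (D.w q.2)))) =
        ∑ c ∈ v.support, h q * (star (v c) * D.tau c (D.emb u * (D.w q.1 * star (D.w q.2)))) := by
      intro q _
      rw [Finsupp.sum, Finset.mul_sum]
    rw [Finset.sum_congr rfl e1, Finset.sum_comm]
    refine Finset.sum_congr rfl fun c hcs => ?_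
    obtain ⟨T, hT⟩ := hlin c (hc c hcs)
    have e2 : HH D = ∑ q ∈ h.support, h q • (D.w q.1 * star (D.w q.2)) := by
      rw [← hh, Finsupp.sum]
      rfl
    have e3 : D.tau c (D.emb u * HH D) =
        ∑ q ∈ h.support, h q * D.tau c (D.emb u * (D.w q.1 * star (D.w q.2))) := by
      rw [← hT, e2, Finset.mul_sum, map_sum]
      refine Finset.sum_congr rfl fun q _ => ?_
      rw [mul_smul_comm, map_smul, hT]
      rfl
    rw [e3, Finset.mul_sum]
    refine Finset.sum_congr rfl fun q _ => ?_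
    ring
  rw [e]
  refine (norm_sum_le _ _).trans ?_
  rw [Finset.sum_mul, Finset.sum_mul]
  refine Finset.sum_le_sum fun q hq => ?_
  rw [norm_mul, mul_assoc]
  refine mul_le_mul_of_nonneg_left ?_ (norm_nonneg _)
  have hlen : q.2.length ≤ g :=
    (Finset.le_sup (f := fun q : W n × W n => q.2.length) hq).trans hg
  exact key h1 h3 h4 h5 D g g' u v hg' hv hu hvl q.1 q.2 hlen

end Pool.Agent.Helper47.SI
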